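import Mathlib

/-!
# Sums of three squares

Every natural number of the form `8 m + 3` is a sum of three (odd) squares. Proof (Dirichlet,
Landau): a positive definite ternary form with integral matrix of determinant one takes only sums of
three squares as values, and `8 m + 3` is a value of such a form, by Dirichlet's theorem on primes
in arithmetic progressions.
-/

namespace Pool.Agent.H54.TS

open NumberTheorySymbols

/-- all values of the form with the matrix `(a, t, s; t, b, r; s, r, c)` are sums of three squares -/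
def Rep (a b c r s t : ℤ) : Prop :=
  ∀ x y z : ℤ, ∃ u v w : ℤ,
    a * x ^ 2 + b * y ^ 2 + c * z ^ 2 + 2 * r * y * z + 2 * s * x * z + 2 * t * x * y
      = u ^ 2 + v ^ 2 + w ^ 2

theorem Rep.swap12 {a b c r s t : ℤ} (h : Rep b a c s r t) : Rep a b c r s t := by
  intro x y z
  obtain ⟨u, v, w, e⟩ := h y x z
  exact ⟨u, v, w, by rw [← e]; ring⟩

theorem Rep.swap23 {a b c r s t : ℤ} (h : Rep a c b r t s) : Rep a b c r s t := by
  intro x y z
  obtain ⟨u, v, w, e⟩ := h x z y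
  exact ⟨u, v, w, by rw [← e]; ring⟩

theorem Rep.shift12 {a b c r s t : ℤ} (k : ℤ)
    (h : Rep a (b + 2 * k * t + k ^ 2 * a) c (r + k * s) s (t + k * a)) : Rep a b c r s t := by
  intro x y z
  obtain ⟨u, v, w, e⟩ := h (x - k * y) y z
  exact ⟨u, v, w, by rw [← e]; ring⟩

theorem Rep.shift13 {a b c r s t : ℤ} (k : ℤ)
    (h : Rep a b (c + 2 * k * s + k ^ 2 * a) (r + k * t) (s + k * a) t) : Rep a b c r s t := by
  intro x y z
  obtain ⟨u, v, w, e⟩ := h (x - k * z) y z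
  exact ⟨u, v, w, by rw [← e]; ring⟩

theorem Rep.shift23 {a b c r s t : ℤ} (k : ℤ)
    (h : Rep a b (c + 2 * k * r + k ^ 2 * b) (r + k * b) (s + k * t) t) : Rep a b c r s t := by
  intro x y z
  obtain ⟨u, v, w, e⟩ := h x (y - k * z) z
  exact ⟨u, v, w, by rw [← e]; ring⟩

theorem exists_round (t : ℤ) {a : ℤ} (ha : 0 < a) :
    ∃ k, -a ≤ 2 * (t + k * a) ∧ 2 * (t + k * a) ≤ a := by
  refine ⟨-((2 * t + a) / (2 * a)), ?_, ?_⟩
  · have h1 := Int.mul_ediv_self_le (x := 2 * t + a) (k := 2 * a) (by omega)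
    nlinarith
  · have h2 := Int.lt_mul_ediv_self_add (x := 2 * t + a) (k := 2 * a) (by omega)
    nlinarith

/-- the form is reduced: it is `x^2 + y^2 + z^2` -/
theorem reduced {a b c r s t : ℤ} (ha : 0 < a) (hd : 0 < a * b - t ^ 2)
    (hD : a * b * c + 2 * r * s * t - a * r ^ 2 - b * s ^ 2 - c * t ^ 2 = 1)
    (ht : -a ≤ 2 * t) (ht' : 2 * t ≤ a) (hs : -a ≤ 2 * s) (hs' : 2 * s ≤ a)
    (hg : -(a * b - t ^ 2) ≤ 2 * (a * r - t * s)) (hg' : 2 * (a * r - t * s) ≤ a * b - t ^ 2)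
    (hab : a ≤ b) (hh : a * b - t ^ 2 ≤ a * c - s ^ 2) : Rep a b c r s t := by
  obtain ⟨d, hdd⟩ : ∃ d, d = a * b - t ^ 2 := ⟨_, rfl⟩
  obtain ⟨g, hgg⟩ : ∃ g, g = a * r - t * s := ⟨_, rfl⟩
  rw [← hdd] at hd hg hg' hh
  rw [← hgg] at hg hg'
  have h1 : d * (a * c - s ^ 2) = a + g ^ 2 := by
    rw [hdd, hgg]
    linear_combination a * hD
  have h2 : d * d ≤ a + g ^ 2 := by
    rw [← h1]
    exact mul_le_mul_of_nonneg_left hh hd.le
  have h3 : 4 * g ^ 2 ≤ d ^ 2 := by nlinarith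
  have h4 : 3 * d ^ 2 ≤ 4 * a := by nlinarith
  have h5 : 4 * t ^ 2 ≤ a ^ 2 := by nlinarith
  have h6 : 3 * a ^ 2 ≤ 4 * d := by nlinarith
  have h7 : a < 2 := by
    by_contra h
    push Not at h
    have h8 : 3 * a ≤ 2 * d := by nlinarith
    have h9 : 3 ≤ d := by omega
    nlinarith
  obtain rfl : a = 1 := by omega
  have h8 : d < 2 := by
    by_contra h
    push Not at h
    nlinarith
  obtain rfl : d = 1 := by omega
  obtain rfl : t = 0 := by omega
  obtain rfl : s = 0 := by omega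
  obtain rfl : b = 1 := by
    have : (1 : ℤ) = 1 * b - 0 ^ 2 := hdd
    linarith
  obtain rfl : r = 0 := by
    have h9 : g = r := by rw [hgg]; ring
    omega
  obtain rfl : c = 1 := by linarith
  intro x y z
  exact ⟨x, y, z, by ring⟩

theorem rep_of_det (N : ℕ) : ∀ (M : ℕ) (a b c r s t : ℤ), a.toNat = N →
    (a * b - t ^ 2).toNat = M → 0 < a → 0 < a * b - t ^ 2 →
    a * b * c + 2 * r * s * t - a * r ^ 2 - b * s ^ 2 - c * t ^ 2 = 1 → Rep a b c r s t := by
  induction N using Nat.strong_induction_on with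
  | _ N ihN =>
    intro M
    induction M using Nat.strong_induction_on with
    | _ M ihM =>
      intro a b c r s t hN hM ha hd hD
      obtain ⟨k1, h1, h1'⟩ := exists_round (a * r - t * s) hd
      apply Rep.shift23 k1
      obtain ⟨k2, h2, h2'⟩ := exists_round t ha
      apply Rep.shift12 k2
      obtain ⟨k3, h3, h3'⟩ := exists_round (s + k1 * t) ha
      apply Rep.shift13 k3
      obtain ⟨b', hb'⟩ : ∃ b', b' = b + 2 * k2 * t + k2 ^ 2 * a := ⟨_, rfl⟩
      obtain ⟨t', ht'⟩ : ∃ t', t' = t + k2 * a := ⟨_, rfl⟩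
      obtain ⟨s', hs'⟩ : ∃ s', s' = s + k1 * t + k3 * a := ⟨_, rfl⟩
      obtain ⟨c', hc'⟩ : ∃ c', c' = c + 2 * k1 * r + k1 ^ 2 * b + 2 * k3 * (s + k1 * t)
        + k3 ^ 2 * a := ⟨_, rfl⟩
      obtain ⟨r', hr'⟩ : ∃ r', r' = r + k1 * b + k2 * (s + k1 * t) + k3 * (t + k2 * a) :=
        ⟨_, rfl⟩
      rw [← hr', ← hc', ← hs', ← hb', ← ht']
      have e1 : a * b' - t' ^ 2 = a * b - t ^ 2 := by rw [hb', ht']; ring
      have e2 : a * r' - t' * s' = a * r - t * s + k1 * (a * b - t ^ 2) := by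
        rw [hr', ht', hs']; ring
      have e3 : a * b' * c' + 2 * r' * s' * t' - a * r' ^ 2 - b' * s' ^ 2 - c' * t' ^ 2 = 1 := by
        rw [← hD, hb', ht', hs', hc', hr']; ring
      have hd' : 0 < a * b' - t' ^ 2 := by rw [e1]; exact hd
      have hb0 : 0 < b' := by
        by_contra h
        push Not at h
        nlinarith [mul_nonneg ha.le (neg_nonneg.2 h), sq_nonneg t']
      have hh0 : 0 < a * c' - s' ^ 2 := by
        have e4 : (a * b' - t' ^ 2) * (a * c' - s' ^ 2) = a + (a * r' - t' * s') ^ 2 := by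
          linear_combination a * e3
        by_contra h
        push Not at h
        nlinarith [mul_nonneg hd'.le (neg_nonneg.2 h), sq_nonneg (a * r' - t' * s')]
      rcases lt_or_ge b' a with hba | hba
      · apply Rep.swap12
        exact ihN b'.toNat (by omega) _ b' a c' s' r' t' rfl rfl hb0 (by linarith) (by linarith)
      rcases lt_or_ge (a * c' - s' ^ 2) (a * b' - t' ^ 2) with hhd | hhd
      · apply Rep.swap23
        exact ihM (a * c' - s' ^ 2).toNat (by rw [← hM, ← e1]; omega) a c' b' r' t' s' hN rfl ha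
          hh0 (by linarith)
      exact reduced ha hd' e3 (by rw [ht']; exact h2) (by rw [ht']; exact h2')
        (by rw [hs']; exact h3) (by rw [hs']; exact h3') (by rw [e1, e2]; exact h1)
        (by rw [e1, e2]; exact h1') hba hhd

/-- A positive definite ternary form with integral matrix of determinant one takes only sums of three
squares as values. -/
theorem rep {a b c r s t : ℤ} (ha : 0 < a) (hd : 0 < a * b - t ^ 2)
    (hD : a * b * c + 2 * r * s * t - a * r ^ 2 - b * s ^ 2 - c * t ^ 2 = 1) :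
    Rep a b c r s t :=
  rep_of_det _ _ a b c r s t rfl rfl ha hd hD

theorem jac {p B : ℕ} {n : ℕ} (hp : p % 4 = 1) (hB : B % 8 = 1) (h : 2 * p + 1 = B * n) :
    J(-(B : ℤ) | p) = 1 := by
  have hpo : Odd p := Nat.odd_iff.2 (by omega)
  have hBo : Odd B := Nat.odd_iff.2 (by omega)
  have h1 : J(-(B : ℤ) | p) = J((B : ℤ) | p) := by
    rw [jacobiSym.neg _ hpo, ZMod.χ₄_nat_one_mod_four hp, one_mul]
  have h2 : J((B : ℤ) | p) = J((p : ℤ) | B) :=
    (jacobiSym.quadratic_reciprocity_one_mod_four hp hBo).symm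
  have h3 : J((2 * p : ℤ) | B) = 1 := by
    have h4 : J((2 * p : ℤ) | B) = J((-1 : ℤ) | B) := by
      apply jacobiSym.mod_left'
      have h5 : (2 * p : ℤ) = -1 + B * n := by
        have : ((2 * p + 1 : ℕ) : ℤ) = ((B * n : ℕ) : ℤ) := by rw [h]
        push_cast at this
        linarith
      rw [h5, Int.add_mul_emod_self_left]
    rw [h4, jacobiSym.at_neg_one hBo, ZMod.χ₄_nat_one_mod_four (by omega)]
  have h6 : J((2 : ℤ) | B) = 1 := by
    rw [jacobiSym.at_two hBo, ZMod.χ₈_nat_eq_if_mod_eight]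
    simp [hB]
    omega
  rw [jacobiSym.mul_left, h6, one_mul] at h3
  rw [h1, h2, h3]

theorem exists_prime (m : ℕ) : ∃ v p : ℕ, p.Prime ∧ p = 4 * (8 * m + 3) * v + (4 * m + 1) := by
  have hne : NeZero (4 * (8 * m + 3)) := ⟨by omega⟩
  have hc : Nat.Coprime (4 * m + 1) (4 * (8 * m + 3)) := by
    apply Nat.Coprime.mul_right
    · rw [show (4 : ℕ) = 2 * 2 from rfl]
      have : Nat.Coprime (2 * 2 * m + 1) 2 := by
        rw [Nat.coprime_two_right]
        exact ⟨2 * m, by ring⟩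
      exact this.mul_right this
    · have h1 : Nat.Coprime (4 * m + 1) 1 := Nat.coprime_one_right _
      rw [show 8 * m + 3 = 1 + 2 * (4 * m + 1) by ring]
      exact (Nat.coprime_add_mul_right_right (4 * m + 1) 1 2).2 h1
  have hu : IsUnit ((4 * m + 1 : ℕ) : ZMod (4 * (8 * m + 3))) := (ZMod.isUnit_iff_coprime _ _).2 hc
  obtain ⟨p, hp, hpp, he⟩ := Nat.forall_exists_prime_gt_and_eq_mod hu (4 * m + 1)
  rw [ZMod.natCast_eq_natCast_iff] at he
  obtain ⟨v, hv⟩ := (Nat.modEq_iff_dvd' hp.le).1 he.symm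
  exact ⟨v, p, hpp, by omega⟩

/-- every `8 m + 3` is a sum of three squares of integers -/
theorem three_int (m : ℕ) : ∃ u v w : ℤ, (8 * m + 3 : ℤ) = u ^ 2 + v ^ 2 + w ^ 2 := by
  obtain ⟨v, p, hp, hpe⟩ := exists_prime m
  have hfact : Fact p.Prime := ⟨hp⟩
  have h2p : 2 * p + 1 = (8 * v + 1) * (8 * m + 3) := by rw [hpe]; ring
  have hp4 : p % 4 = 1 := by
    have : p = 4 * ((8 * m + 3) * v + m) + 1 := by rw [hpe]; ring
    omega
  have hj := jac hp4 (B := 8 * v + 1) (by omega) h2p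
  obtain ⟨y, hy⟩ := ZMod.isSquare_of_jacobiSym_eq_one hj
  -- an odd integer `t` with `t ^ 2 + B` divisible by `2 p`
  obtain ⟨t, ht, hto⟩ : ∃ t : ℤ, (p : ℤ) ∣ t ^ 2 + (8 * v + 1 : ℕ) ∧ t % 2 = 1 := by
    have hd : (p : ℤ) ∣ (y.val : ℤ) ^ 2 + (8 * v + 1 : ℕ) := by
      rw [← ZMod.intCast_zmod_eq_zero_iff_dvd]
      push_cast
      rw [ZMod.natCast_zmod_val]
      push_cast at hy
      rw [sq, ← hy]
      ring
    rcases Int.emod_two_eq_zero_or_one (y.val : ℤ) with h | h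
    · refine ⟨(y.val : ℤ) + p, ?_, ?_⟩
      · have : ((y.val : ℤ) + p) ^ 2 + (8 * v + 1 : ℕ)
            = ((y.val : ℤ) ^ 2 + (8 * v + 1 : ℕ)) + p * (2 * y.val + p) := by ring
        rw [this]
        exact dvd_add hd (dvd_mul_right _ _)
      · omega
    · exact ⟨_, hd, h⟩
  have h2 : (2 : ℤ) ∣ t ^ 2 + (8 * v + 1 : ℕ) := by
    obtain ⟨q, hq⟩ : ∃ q, t = 2 * q + 1 := ⟨t / 2, by omega⟩
    exact ⟨2 * q ^ 2 + 2 * q + 4 * v + 1, by rw [hq]; push_cast; ring⟩
  have hcop : IsCoprime (2 : ℤ) (p : ℤ) := by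
    rw [Int.isCoprime_iff_gcd_eq_one]
    have : Nat.Coprime 2 p := by
      rw [Nat.coprime_two_left]
      exact Nat.odd_iff.2 (by omega)
    exact_mod_cast this
  obtain ⟨a, ha⟩ := hcop.mul_dvd h2 ht
  have hp0 : (0 : ℤ) < p := by exact_mod_cast hp.pos
  have hapos : 0 < a := by
    have h3 : (0 : ℤ) < 2 * p * a := by
      rw [← ha]
      positivity
    exact (mul_pos_iff_of_pos_left (by positivity)).1 h3
  have hB : ((2 * p : ℤ)) = (8 * v + 1 : ℕ) * (8 * m + 3) - 1 := by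
    have : ((2 * p + 1 : ℕ) : ℤ) = (((8 * v + 1) * (8 * m + 3) : ℕ) : ℤ) := by rw [h2p]
    push_cast at this ⊢
    linarith
  have hdet : a * (2 * p) - t ^ 2 = (8 * v + 1 : ℕ) := by linarith
  have hrep : Rep a (2 * p) (8 * m + 3) 0 1 t := by
    refine rep hapos (by rw [hdet]; positivity) ?_
    have : a * (2 * p) * (8 * m + 3) + 2 * 0 * 1 * t - a * 0 ^ 2 - 2 * p * 1 ^ 2
        - (8 * m + 3) * t ^ 2 = (a * (2 * p) - t ^ 2) * (8 * m + 3) - 2 * p := by ring
    rw [this, hdet, hB]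
    ring
  obtain ⟨x, y', z, h⟩ := hrep 0 0 1
  exact ⟨x, y', z, by rw [← h]; ring⟩

/-- **Gauss.** Every natural number of the form `8 m + 3` is a sum of three squares. -/
theorem three (m : ℕ) : ∃ a b c : ℕ, 8 * m + 3 = a ^ 2 + b ^ 2 + c ^ 2 := by
  obtain ⟨u, v, w, h⟩ := three_int m
  refine ⟨u.natAbs, v.natAbs, w.natAbs, ?_⟩
  zify
  rw [sq_abs, sq_abs, sq_abs]
  exact h

/-- the three squares are odd -/
theorem three_odd (m : ℕ) : ∃ a b c : ℕ, 8 * m + 3 = a ^ 2 + b ^ 2 + c ^ 2 ∧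
    a % 2 = 1 ∧ b % 2 = 1 ∧ c % 2 = 1 := by
  obtain ⟨a, b, c, h⟩ := three m
  refine ⟨a, b, c, h, ?_⟩
  have key : ∀ x : ℕ, (x % 2 = 1 ∧ x ^ 2 % 8 = 1) ∨ (x % 2 = 0 ∧ x ^ 2 % 4 = 0) := by
    intro x
    rcases Nat.even_or_odd' x with ⟨q, hq | hq⟩
    · right
      refine ⟨by omega, ?_⟩
      rw [hq, show (2 * q) ^ 2 = 4 * q ^ 2 by ring]
      omega
    · left
      refine ⟨by omega, ?_⟩
      rcases Nat.even_or_odd' q with ⟨r, hr | hr⟩
      · rw [hq, hr, show (2 * (2 * r) + 1) ^ 2 = 8 * (2 * r ^ 2 + r) + 1 by ring]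
        omega
      · rw [hq, hr, show (2 * (2 * r + 1) + 1) ^ 2 = 8 * (2 * r ^ 2 + 3 * r + 1) + 1 by ring]
        omega
  rcases key a with ⟨h1, h1'⟩ | ⟨h1, h1'⟩ <;> rcases key b with ⟨h2, h2'⟩ | ⟨h2, h2'⟩ <;>
    rcases key c with ⟨h3, h3'⟩ | ⟨h3, h3'⟩ <;> first | exact ⟨h1, h2, h3⟩ | omega

end Pool.Agent.H54.TS
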